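import Mathlib
import Pool.Agent.N790.FS.Asm

/-!
# Every vector of multiples of 4, or every vector of multiples of 6, is a sum of a number of realised vectors of
shifts which does not depend on the dimension

Let `q` be even and `r` prime to `q`. Call a vector `a` of `k` distinct nonzero integers good if
`N, N + q a_1, ..., N + q a_k` are all prime for infinitely many primes `N ≡ r (mod q)`. There is `E ∈ {2, 3}`
such that for ALL `k` and all `m ≥ min (3 k + 1, 10 ^ 19)` every vector of `k` integers divisible by `E` is a sum
of exactly `m` good vectors.

For `q = 2`: all vectors of `(4 ℤ)^k`, for all `k`, or all vectors of `(6 ℤ)^k`, for all `k`, are sums of exactly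
`m` vectors of shifts which satisfy the prime tuples conjecture. In the starting file `ExplicitGeneration` the
number `m` had to be at least `8 k (k + 1)`, and `E` depended on `k`.

The proof. The coloured Maynard-Tao theorem with more than a quarter of the classes (starting files) is used
through a limit along an ultrafilter of the patterns with the shifts `x_j + s_j` near the terms of a rapidly
increasing sequence. A finite set `S` of integers is called free if all patterns with all `s_j ∈ S` occur in the
limit.
* Every admissible set with `n` elements has a free subset with more than `n / 4` elements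
  (`Pool.Agent.N790.FS.free_sub`).
* Four integers which miss a class modulo `3` contain a free pair; a rigidity argument
  (`Pool.Agent.N790.GS.trich`) makes every multiple of `E` a sum of three differences of free pairs. This gives
  `3 k + 1` rows.
* The squares between `N ^ 2` and `4 N ^ 2` are admissible (for the primes not dividing `q`), so more than a
  quarter of them form a free set `S`. By an elementary bound for the additive energy of the squares `S + S + S`
  has positive density, and by a covering argument the sums of a bounded number of elements of `S` contain,
  after a translation, all multiples up to `R` of some `E₀ ≤ 2 * 10 ^ 17`. Since the elements of a free set can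
  be chosen independently in all coordinates, the number of rows does not depend on `k`.
-/

set_option autoImplicit false

namespace Pool.Agent.Results.MP_8923e7_nt.AbsoluteGeneration

/-- `a` is a vector of distinct nonzero integers, and `N, N + q a_1, …, N + q a_k` are all prime for infinitely
many `N ≡ r (mod q)` -/
def IsGood (q : ℕ) (r : ℤ) {k : ℕ} (a : Fin k → ℤ) : Prop :=
  Function.Injective a ∧ (∀ i, a i ≠ 0) ∧
    {N : ℕ | N.Prime ∧ (N : ℤ) ≡ r [ZMOD q] ∧ ∀ i, ∃ p : ℕ, p.Prime ∧ (p : ℤ) = N + q * a i}.Infinite

theorem result (q : ℕ) (r : ℤ) (hq : 1 ≤ q) (hq2 : Even q) (hqr : IsCoprime r (q : ℤ)) :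
    ∃ E : ℤ, (E = 2 ∨ E = 3) ∧ ∀ k m : ℕ, 1 ≤ k → min (3 * k + 1) (10 ^ 19) ≤ m → ∀ w : Fin k → ℤ,
      ∃ v : Fin m → Fin k → ℤ, (∀ j, IsGood q r (v j)) ∧ ∑ j, v j = E • w :=
  Pool.Agent.N790.FS.main q r hq hq2.two_dvd hqr

end Pool.Agent.Results.MP_8923e7_nt.AbsoluteGeneration
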