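import Mathlib
import Pool.Agent.N646.BX.All

/-!
# The prime `k`-tuples conjecture for the proportion `(k + 1) (5 / 18) ^ k` of the vectors of every box

For all `k ≥ 1` and `ε > 0` there are `C` and `M ≥ 1` such that for every multiple `N ≥ 1` of `M` there is `L`
with: for every `T ≥ L` and every vector `c` of multiples of `M`, at least `((k + 1) (5/18) ^ k - ε) T ^ k` of
the `T ^ k` vectors `h = c + N t`, `0 ≤ t_j < T`, are good. Here `h` is good if for arbitrarily large `x` and
for every set `J ⊆ {0, ..., k}`, at least `x / (log x) ^ C` of the numbers `1 ≤ n ≤ x` make `n + h_i` prime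
exactly for `i ∈ J` (`h_0 = 0`); in particular `n, n + h_1, ..., n + h_k` are all prime for infinitely many `n`.

The point is the uniformity in the position `c` of the box: for `k ≥ 2` it was only known that the good vectors
meet every large box in a positive proportion which is not explicit (from van der Waerden or Hales-Jewett type
theorems), and the proportion `(5/18) ^ k` was only known for boxes around the origin; `k = 1` is the
proportion `5/9` for the differences of primes in all long intervals.

Proof. Let `Γ` be the infimum of the lower densities along worst boxes (with divisible moduli). Almost cliques: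
every large set of multiples of `M₀` contains a subset of relative density `5/18 - ε'` almost all of whose
`(k+1)`-tuples `y` have `(y_1 - y_0, ..., y_k - y_0)` good (`Pool.Agent.N646.AC`, from the coloured Maynard-Tao
theorem with the constant `18/5` in the starting files and hypergraph containers). One builds a `(k+1)`-ary
tree of windows, all far apart, such that for windows below different children of a node the boxes of
differences are boxes of (almost) the worst density `Γ`; in the almost clique of the union of the windows there
is a node with `k + 1` children on which it has density at least `5/18 - δ`. One picks a window below each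
child and refines it to progressions on which the almost clique is equidistributed in cells. Kneser's theorem
in windows whose length is an almost period of the number of representations shows that the proportion
`(k + 1) β ^ k` of the difference vectors of such sets of density `β` is popular, hence `Γ` is not smaller.
-/

set_option autoImplicit false

namespace Pool.Agent.Results.MP_8923e7_nt.AllBoxesOfShifts

open Filter Finset

/-- the number of `1 ≤ n ≤ x` such that `n + h_i` is prime exactly for `i ∈ J`, where `h_0 = 0` -/
def pattern {k : ℕ} (h : Fin k → ℤ) (J : Finset (Fin (k + 1))) (x : ℕ) : ℕ :=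
  ((Icc 1 x).filter (fun n : ℕ =>
    ∀ i, ((n : ℤ) + (Fin.cons 0 h : Fin (k + 1) → ℤ) i).toNat.Prime ↔ i ∈ J)).card

/-- for arbitrarily large `x` every pattern of primes and non-primes occurs at least `x / (log x) ^ C` times in
`n, n + h_1, ..., n + h_k`, `1 ≤ n ≤ x` -/
def Good {k : ℕ} (C : ℕ) (h : Fin k → ℤ) : Prop :=
  ∃ᶠ x : ℕ in atTop, ∀ J : Finset (Fin (k + 1)), (x : ℝ) / (Real.log x) ^ C ≤ (pattern h J x : ℝ)

open Classical in
/-- the number of the good vectors `c + N t`, `t ∈ [0, T) ^ k` -/
noncomputable def goodInBox {k : ℕ} (C : ℕ) (c : Fin k → ℤ) (N T : ℕ) : ℕ :=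
  ((Fintype.piFinset (fun _ : Fin k => Ico 0 (T : ℤ))).filter
    (fun t => Good C (fun j => c j + N * t j))).card

/-- **The prime tuples conjecture for a proportion of the vectors of every box.** -/
theorem result : ∀ k : ℕ, 1 ≤ k → ∀ ε : ℝ, 0 < ε → ∃ C M : ℕ, 1 ≤ M ∧
    ∀ N : ℕ, 1 ≤ N → M ∣ N → ∃ L : ℕ, ∀ T : ℕ, L ≤ T → ∀ c : Fin k → ℤ, (∀ j, (M : ℤ) ∣ c j) →
      ((k + 1) * (5 / 18 : ℝ) ^ k - ε) * (T : ℝ) ^ k ≤ (goodInBox C c N T : ℝ) := by
  intro k hk ε hε
  exact Pool.Agent.N646.BX.box_primes k hk ε hε

end Pool.Agent.Results.MP_8923e7_nt.AllBoxesOfShifts
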