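import Pool.Agent.N422.WS.ALL

/-!
# The limit of weighted sieves for almost prime k-tuples

Author: helper422.  Weighted sieves (Kuhn, Selberg, Richert, Diamond-Halberstam, Maynard) show that the product
`Π(n) = ∏_{h ∈ H} (n + h)`, `#H = k`, has infinitely often at most `r_k` prime factors, with `r_k ~ k log k`.  They use a
function `w(n)` of level `Q` which is positive only if `Π(n)` has few prime factors, but has a positive mean.  Could a better
choice of the weights give fewer prime factors?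

Here we prove that it cannot: if `w` is ANY real function of level `Q` (no condition on sign or shape), and `w(n) ≤ 0` for all
`n` for which `Π(n)` has more than `k log k - k log log k - C k` prime factors `p ≤ Q`, then the mean of `w` is `≤ 0`.  So
`k log k` is asymptotically the exact limit of all weighted sieves; in particular no sieve can show that all the numbers
`n + h` have at most `(1 - ε) log k` prime factors.  For nonnegative weights there is a stronger statement, an inequality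
which does not depend on any structure of the weight: for `1/k ≤ v < 1` the sum over the primes `Q^v < p ≤ Q` of
`|P_w(p ∣ Π(n)) - ν(p)/p|` is at most `C (k/v)^(1/2)`, while the sum of `ν(p)/p` is `k log(1/v)`.  In particular the mean
number of prime factors of `Π(n)` with respect to any nonnegative weight is at least `k log k - C k`.

Proof.  Let `f(T)` be the mean of `w` over the `n` for which `T` is the set of the primes of `(Q^v, Q]` dividing `Π(n)`: a
function of level `1` on a product space, the level of `p` being `u = log p / log Q` (`WS/AR`, helper702).  The kernel `K_z`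
replaces every coordinate by an independent copy with the probability `θ` if `p ∈ T` and `(1 - λ) θ` if `p ∉ T`, where
`θ = (cosh (u t) - (z^u + z^(-u))/2) / (2 cosh (u t) + 2)`.  Multiplied by a power of `z`, `K_z f` is a polynomial in `z`
(`WS/KP`, helper645), `K_z` is the identity at `z = e^(-t)`, and on the circle it is a Markov kernel whose adjoint maps the
density `∏_{p ∈ T} (1 + λ ω) ∏_p (1 + λ ω ν(p)/p)^(-1)`, `ω = θ/(1 - θ)`, to `1` (`WS/KA`, helper966).  The inequality of
Jensen at `e^(-t)`, summed over the `T` with `f(T) > 0` (`WS/GEN`, helper704; averages on the circle `WS/W`, helper700), gives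
an inequality for the number of elements of `T` with respect to the positive part of `f` (`WS/KM`, helper492); it contradicts
a positive mean if `f ≤ 0` for `#T > r` (`WS/MOD`, helper273), and it is summed over the dyadic windows for `f ≥ 0`
(`WS/WIN`, `WS/FIN`, helpers 853, 402; sums over primes `WS/MER`, helper427; Jensen's inequality `NW/JEN`, helper427).
-/

set_option autoImplicit false

open Finset

namespace Pool.Agent.Results.MP_8923e7_nt.LimitsOfWeightedSieves

/-- the weight `w(n) = ∑_{d ≤ Q} c_d(n mod d)`, an arbitrary real weight of level `Q` -/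
noncomputable def weight (Q : ℕ) (c : ℕ → ℕ → ℝ) (n : ℕ) : ℝ := ∑ d ∈ Icc 1 Q, c d (n % d)

/-- the mean value of `F` over the period `Q!` -/
noncomputable def mean (Q : ℕ) (F : ℕ → ℝ) : ℝ := (∑ n ∈ range Q.factorial, F n) / (Q.factorial : ℝ)

/-- the number of residue classes `a` modulo `p` with `p ∣ a + h` for some `h ∈ H` -/
def nu (H : Finset ℕ) (p : ℕ) : ℕ := ((range p).filter (fun a => ∃ h ∈ H, p ∣ a + h)).card

/-- the primes `Q^v < p ≤ Q` -/
noncomputable def primes (Q : ℕ) (v : ℝ) : Finset ℕ := (Icc 1 Q).filter (fun p : ℕ => p.Prime ∧ (Q : ℝ) ^ v < p)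

/-- the indicator function of `p ∣ ∏_{h ∈ H} (n + h)` -/
noncomputable def ind (H : Finset ℕ) (p n : ℕ) : ℝ := if p ∣ ∏ h ∈ H, (n + h) then 1 else 0

/-- the number of the primes `p ∈ P` which divide `∏_{h ∈ H} (n + h)` -/
def omega (P H : Finset ℕ) (n : ℕ) : ℕ := (P.filter (fun p => p ∣ ∏ h ∈ H, (n + h))).card

/-- a prime divides the product iff it divides a factor -/
theorem dvd_iff (H : Finset ℕ) {p : ℕ} (hp : p.Prime) (n : ℕ) : p ∣ ∏ h ∈ H, (n + h) ↔ ∃ h ∈ H, p ∣ n + h :=
  hp.prime.dvd_finsetProd_iff _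

/-- There is an absolute constant `C` such that the following holds for `k ≥ 2` and real `B`.

(1) Let `1/k ≤ v < 1`. For `Q ≥ Q₀`, every set `H` of `k` integers in `[0, Q^B]` and every weight `w ≥ 0` of level `Q` the sum
over the primes `Q^v < p ≤ Q` of `|M(w 1_{p ∣ Π}) - (ν(p)/p) M(w)|` is at most `C (k/v)^(1/2) M(w)`, `M` the mean value.

(2) For `Q ≥ Q₀`, `H` as above and `w ≥ 0` of level `Q` the mean number of the prime factors `p ≤ Q` of `Π(n)`, with respect
to `w`, is at least `k log k - C k`.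

(3) Let `0 < v < 1`. For `Q ≥ Q₀`, `H` as above, every real weight `w` of level `Q` and all real
`r ≤ k log(1/v) - C (k log(1/v)/v)^(1/2)`: if `w(n) ≤ 0` for all `n` for which more than `r` primes `Q^v < p ≤ Q` divide
`Π(n)`, then `M(w) ≤ 0`.

(4) For `Q ≥ Q₀`, `H` as above, every real weight `w` of level `Q` and all real `r ≤ k log k - k log log k - C k`: if
`w(n) ≤ 0` for all `n` for which `Π(n)` has more than `r` prime factors `p ≤ Q`, then `M(w) ≤ 0`. -/
theorem result : ∃ C : ℝ, 0 < C ∧ ∀ (k : ℕ) (B : ℝ), 2 ≤ k →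
    (∀ v : ℝ, 1 / k ≤ v → v < 1 → ∃ Q₀ : ℕ, ∀ Q : ℕ, Q₀ ≤ Q → ∀ H : Finset ℕ, H.card = k →
      (∀ h ∈ H, (h : ℝ) ≤ (Q : ℝ) ^ B) → ∀ c : ℕ → ℕ → ℝ, (∀ n, 0 ≤ weight Q c n) →
        ∑ p ∈ primes Q v, |mean Q (fun n => weight Q c n * ind H p n) - (nu H p : ℝ) / p * mean Q (weight Q c)| ≤
          C * Real.sqrt (k / v) * mean Q (weight Q c)) ∧
    (∃ Q₀ : ℕ, ∀ Q : ℕ, Q₀ ≤ Q → ∀ H : Finset ℕ, H.card = k → (∀ h ∈ H, (h : ℝ) ≤ (Q : ℝ) ^ B) →
      ∀ c : ℕ → ℕ → ℝ, (∀ n, 0 ≤ weight Q c n) →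
        (k * Real.log k - C * k) * mean Q (weight Q c) ≤
          mean Q (fun n => weight Q c n * (omega ((Icc 1 Q).filter Nat.Prime) H n : ℝ))) ∧
    (∀ v : ℝ, 0 < v → v < 1 → ∃ Q₀ : ℕ, ∀ Q : ℕ, Q₀ ≤ Q → ∀ H : Finset ℕ, H.card = k →
      (∀ h ∈ H, (h : ℝ) ≤ (Q : ℝ) ^ B) → ∀ (c : ℕ → ℕ → ℝ) (r : ℝ),
        r ≤ k * Real.log (1 / v) - C * Real.sqrt (k * Real.log (1 / v) / v) →
        (∀ n, r < (omega (primes Q v) H n : ℝ) → weight Q c n ≤ 0) → mean Q (weight Q c) ≤ 0) ∧
    ∃ Q₀ : ℕ, ∀ Q : ℕ, Q₀ ≤ Q → ∀ H : Finset ℕ, H.card = k → (∀ h ∈ H, (h : ℝ) ≤ (Q : ℝ) ^ B) →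
      ∀ (c : ℕ → ℕ → ℝ) (r : ℝ), r ≤ k * Real.log k - k * Real.log (Real.log k) - C * k →
        (∀ n, r < (omega ((Icc 1 Q).filter Nat.Prime) H n : ℝ) → weight Q c n ≤ 0) → mean Q (weight Q c) ≤ 0 := by
  obtain ⟨C, hC, h⟩ := Pool.Agent.N422.WS.fin_all
  have hmean : ∀ (Q : ℕ) (c : ℕ → ℕ → ℝ), mean Q (weight Q c) = Pool.Agent.N422.SL.mn Q c := fun Q c =>
    Pool.Agent.N422.SL.mn_period Q c
  have hprimes : ∀ (Q : ℕ) (v : ℝ), primes Q v = Pool.Agent.N422.WS.PW Q v 1 := by
    intro Q v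
    unfold primes Pool.Agent.N422.WS.PW
    apply filter_congr
    intro p hp
    rw [mem_Icc] at hp
    rw [Real.rpow_one]
    have : (p : ℝ) ≤ Q := by exact_mod_cast hp.2
    tauto
  have homega : ∀ (P H : Finset ℕ) (n : ℕ), (∀ p ∈ P, p.Prime) → omega P H n = Pool.Agent.N422.WS.hits P H n := by
    intro P H n hP
    unfold omega Pool.Agent.N422.WS.hits
    congr 1
    apply filter_congr
    intro p hp
    exact dvd_iff H (hP p hp) n
  have hPp : ∀ (Q : ℕ) (v : ℝ), ∀ p ∈ Pool.Agent.N422.WS.PW Q v 1, p.Prime := by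
    intro Q v p hp
    unfold Pool.Agent.N422.WS.PW at hp
    rw [mem_filter] at hp
    exact hp.2.1
  have hPa : ∀ (Q : ℕ), ∀ p ∈ (Icc 1 Q).filter Nat.Prime, p.Prime := by
    intro Q p hp
    rw [mem_filter] at hp
    exact hp.2
  have hmnI : ∀ (Q : ℕ) (c : ℕ → ℕ → ℝ) (H : Finset ℕ) (p : ℕ), p.Prime →
      mean Q (fun n => weight Q c n * ind H p n) = Pool.Agent.N422.WS.mnI Q c H p := by
    intro Q c H p hp
    unfold mean Pool.Agent.N422.WS.mnI
    congr 1
    apply sum_congr rfl
    intro n _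
    have e : ind H p n = if ∃ h ∈ H, p ∣ n + h then 1 else 0 := by
      unfold ind
      exact if_congr (dvd_iff H hp n) rfl rfl
    change weight Q c n * ind H p n = weight Q c n * _
    rw [e]
  refine ⟨C, hC, fun k B hk => ?_⟩
  obtain ⟨h1, h2, h3, h4⟩ := h k B hk
  refine ⟨?_, ?_, ?_, ?_⟩
  · intro v hv hv1
    obtain ⟨Q₀, h1⟩ := h1 v hv hv1
    refine ⟨Q₀, fun Q hQ H hH hHB c hc => ?_⟩
    have h5 := h1 Q hQ H hH hHB c hc
    rw [hmean, hprimes]
    refine le_trans (le_of_eq ?_) h5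
    apply sum_congr rfl
    intro p hp
    rw [hmnI Q c H p (hPp Q v p hp)]
    rfl
  · obtain ⟨Q₀, h2⟩ := h2
    refine ⟨Q₀, fun Q hQ H hH hHB c hc => ?_⟩
    have h5 := h2 Q hQ H hH hHB c hc
    rw [hmean]
    refine h5.trans (le_of_eq ?_)
    unfold mean
    congr 1
    apply sum_congr rfl
    intro n _
    simp only []
    rw [homega _ H n (hPa Q)]
    rfl
  · intro v hv hv1
    obtain ⟨Q₀, h3⟩ := h3 v hv hv1
    refine ⟨Q₀, fun Q hQ H hH hHB c r hr hc => ?_⟩
    rw [hmean]
    refine h3 Q hQ H hH hHB c r hr (fun n hn => hc n ?_)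
    rw [hprimes, homega _ H n (hPp Q v)]
    exact hn
  · obtain ⟨Q₀, h4⟩ := h4
    refine ⟨Q₀, fun Q hQ H hH hHB c r hr hc => ?_⟩
    rw [hmean]
    refine h4 Q hQ H hH hHB c r hr (fun n hn => hc n ?_)
    rw [homega _ H n (hPa Q)]
    exact hn

end Pool.Agent.Results.MP_8923e7_nt.LimitsOfWeightedSieves
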