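import Mathlib
import Pool.Agent.N646.SF.All

/-!
# Linear equations in vectors of shifts satisfying the prime `k`-tuples conjecture

Let `h_0 = 0`. A vector `h` of `k` integers is good at `x` (with the exponent `C`) if for every
`J ⊆ {0, ..., k}` at least `x / (log x) ^ C` of the numbers `1 ≤ n ≤ x` make `n + h_i` prime exactly for
`i ∈ J`; in particular `n, n + h_1, ..., n + h_k` are all prime for `x / (log x) ^ C` of them.

Theorem. Let `k ≥ 1`, `p ≥ 2` with `(k + 1) (18 - 5 p) < 18` (every `p ≥ 4` for all `k`; `p = 3` for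
`k ≤ 4`, `p = 2` for `k = 1`) and let `a_1, ..., a_p` be nonzero integers. There are `N ≥ 1`, `B`, `C` and
`c > 0` such that for all large `x`, all `B ≤ T ≤ x / B` and ALL vectors `v` of `k` multiples of `N` with
`B |v_j| ≤ T`, the equation `a_1 h^1 + ... + a_p h^p = v` has at least `c T ^ ((p - 1) k)` solutions (the
right order of magnitude) in vectors `h^i` with coordinates in `(-T, T)` which are all good at `x`. For fixed
`T` one can take the same solutions for infinitely many `x`.

The number `p = 4` of the summands does not depend on the dimension `k`; it was known that every vector of a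
sublattice is a sum of `3 k + 1` (or `8 k (k + 1)`, or `10 ^ 19`) vectors good at infinitely many `x`.

Proof. For `N ≤ x / 2` and `ε > 0` the set `{M t : 0 ≤ t < T}` contains a set `A` of relative density at least
`5 / 18 - ε` such that for almost all `(k + 1)`-tuples `y` of elements of `A` the vector
`(y_1 - y_0, ..., y_k - y_0)` is good at `x` (`Pool.Agent.N646.AC`: hypergraph containers and the coloured
Maynard-Tao theorem with the constant `18 / 5`). A density increment gives a progression, of length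
proportional to `T`, on which `A` is equidistributed in cells. Kneser's theorem in windows whose length is an
almost period shows that for `p` equidistributed sets `X_i` of density `β` the proportion `min (1, p β)` of the
integers `s` of some long interval are sums `x_1 + ... + x_p` in at least `c T ^ (p - 1)` ways. As
`(k + 1) (1 - p β) < 1`, for a positive proportion of the `s` all the numbers `s, s + v_1, ..., s + v_k` are
such; so there are at least `c T ^ (1 + (p - 1) (k + 1))` systems of `k + 1` such representations, more than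
the systems containing an exceptional tuple.
-/

set_option autoImplicit false

namespace Pool.Agent.Results.MP_8923e7_nt.LinearEquationsOfShifts

open Filter Finset

/-- the number of `1 ≤ n ≤ x` such that `n + h_i` is prime exactly for `i ∈ J`, where `h_0 = 0` -/
def pattern {k : ℕ} (h : Fin k → ℤ) (J : Finset (Fin (k + 1))) (x : ℕ) : ℕ :=
  ((Icc 1 x).filter (fun n : ℕ =>
    ∀ i, ((n : ℤ) + (Fin.cons 0 h : Fin (k + 1) → ℤ) i).toNat.Prime ↔ i ∈ J)).card

/-- every pattern of primes and non-primes occurs at least `x / (log x) ^ C` times in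
`n, n + h_1, ..., n + h_k`, `1 ≤ n ≤ x` -/
def GoodAt {k : ℕ} (C x : ℕ) (h : Fin k → ℤ) : Prop :=
  ∀ J : Finset (Fin (k + 1)), (x : ℝ) / (Real.log x) ^ C ≤ (pattern h J x : ℝ)

/-- the solutions of `a_1 h^1 + ... + a_p h^p = v` in vectors `h^i` with coordinates in `(-T, T)` -/
noncomputable def solutions {k p : ℕ} (a : Fin p → ℤ) (v : Fin k → ℤ) (T : ℕ) : Finset (Fin p → Fin k → ℤ) :=
  (Fintype.piFinset (fun _ : Fin p => Fintype.piFinset (fun _ : Fin k => Ioo (-(T : ℤ)) T))).filter
    (fun h => ∀ j, ∑ i, a i * h i j = v j)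

open Classical in
/-- **Linear equations in good vectors.** -/
theorem result : ∀ k p : ℕ, 1 ≤ k → 2 ≤ p → ((k : ℤ) + 1) * (18 - 5 * p) < 18 →
    ∀ a : Fin p → ℤ, (∀ i, a i ≠ 0) → ∃ N B C : ℕ, 1 ≤ N ∧ 1 ≤ B ∧ ∃ c : ℝ, 0 < c ∧
      (∀ᶠ x : ℕ in atTop, ∀ T : ℕ, B ≤ T → B * T ≤ x →
        ∀ v : Fin k → ℤ, (∀ j, (N : ℤ) ∣ v j) → (∀ j, B * |v j| ≤ T) →
          c * (T : ℝ) ^ ((p - 1) * k) ≤
            (((solutions a v T).filter (fun h => ∀ i, GoodAt C x (h i))).card : ℝ)) ∧
      ∀ T : ℕ, B ≤ T → ∀ v : Fin k → ℤ, (∀ j, (N : ℤ) ∣ v j) → (∀ j, B * |v j| ≤ T) →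
        ∃ S ⊆ solutions a v T, c * (T : ℝ) ^ ((p - 1) * k) ≤ (S.card : ℝ) ∧
          ∃ᶠ x : ℕ in atTop, ∀ h ∈ S, ∀ i, GoodAt C x (h i) := by
  intro k p _ hp hk a ha
  obtain ⟨N, B, C, hN, hB, c, hc, h⟩ := Pool.Agent.N646.SF.equations k p a ha hp hk
  have h' : ∀ᶠ x : ℕ in atTop, ∀ T : ℕ, B ≤ T → B * T ≤ x →
        ∀ v : Fin k → ℤ, (∀ j, (N : ℤ) ∣ v j) → (∀ j, B * |v j| ≤ T) →
          c * (T : ℝ) ^ ((p - 1) * k) ≤
            (((solutions a v T).filter (fun h => ∀ i, GoodAt C x (h i))).card : ℝ) := by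
    filter_upwards [h] with x hx T hT hTx v hv1 hv2
    refine (hx T hT hTx v hv1 hv2).trans ?_
    rw [Nat.cast_le]
    apply card_le_card
    intro y hy
    rw [mem_filter] at hy
    rw [mem_filter, solutions, mem_filter]
    exact ⟨⟨hy.1, hy.2.2⟩, hy.2.1⟩
  refine ⟨N, B, C, hN, hB, c, hc, h', ?_⟩
  intro T hT v hv1 hv2
  have hev : ∀ᶠ x : ℕ in atTop, ∃ S ∈ (solutions a v T).powerset,
      (c * (T : ℝ) ^ ((p - 1) * k) ≤ (S.card : ℝ) ∧ ∀ h ∈ S, ∀ i, GoodAt C x (h i)) := by
    filter_upwards [h', eventually_ge_atTop (B * T)] with x hx hx2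
    refine ⟨(solutions a v T).filter (fun h => ∀ i, GoodAt C x (h i)), ?_,
      hx T hT hx2 v hv1 hv2, fun h hh => (mem_filter.1 hh).2⟩
    rw [mem_powerset]
    exact filter_subset _ _
  obtain ⟨S, hS, hfr⟩ := Pool.Agent.N646.AC.freq_finset _ _ hev
  obtain ⟨x, hx⟩ := hfr.exists
  exact ⟨S, mem_powerset.1 hS, hx.1, hfr.mono fun x hx => hx.2⟩

end Pool.Agent.Results.MP_8923e7_nt.LinearEquationsOfShifts
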